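import Pool.Agent.LSC.Mono

set_option autoImplicit false

/-!
# MP_4c73d6_lc: the exponent for monotone functions is exactly 4
-/

namespace Pool.Agent.Results.MP_4c73d6_lc.MonotoneExponent

open Pool.Agent.LSC

/-- For every `ε > 0` and all large `n` the number `M` of monotone Boolean functions on `n`
variables with sensitivity at most `2 log n` satisfies `n ^ (4 - ε) ≤ log M ≤ n ^ (4 + ε)`. -/
theorem result : ∀ ε : ℝ, 0 < ε → ∃ n₀ : ℕ, ∀ n : ℕ, n₀ ≤ n →
    (n : ℝ) ^ (4 - ε) ≤ Real.logb 2 ((MonoLow n (2 * Real.logb 2 n)).ncard : ℝ) ∧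
    Real.logb 2 ((MonoLow n (2 * Real.logb 2 n)).ncard : ℝ) ≤ (n : ℝ) ^ (4 + ε) := by
  intro ε hε
  obtain ⟨n₁, hn₁⟩ := oneSided_asym 2 2 ε (by norm_num) (by norm_num) hε
  obtain ⟨L₀, hL₀1, hL₀⟩ := poly_le 64 ε (by norm_num) hε
  obtain ⟨L₁, hL₁1, hL₁⟩ := poly_le 4 1 (by norm_num) (by norm_num)
  refine ⟨max n₁ ⌈(2 : ℝ) ^ (max (max L₀ L₁) 2)⌉₊, fun n hn => ⟨?_, ?_⟩⟩
  · have hn1 : (2 : ℝ) ^ (max (max L₀ L₁) 2) ≤ n :=
      (Nat.le_ceil _).trans (by exact_mod_cast (le_max_right _ _).trans hn)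
    have hn0 : (0 : ℝ) < n := lt_of_lt_of_le (by positivity) hn1
    set L := Real.logb 2 (n : ℝ) with hL
    have hLL : max (max L₀ L₁) 2 ≤ L := by
      rw [hL, Real.le_logb_iff_rpow_le (by norm_num) hn0]
      exact hn1
    have hL2 : 2 ≤ L := (le_max_right _ _).trans hLL
    have hLL0 : L₀ ≤ L := ((le_max_left _ _).trans (le_max_left _ _)).trans hLL
    have hLL1 : L₁ ≤ L := ((le_max_right _ _).trans (le_max_left _ _)).trans hLL
    have hL0 : 0 < L := by linarith
    have hnL : (n : ℝ) = (2 : ℝ) ^ L := by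
      rw [hL, Real.rpow_logb (by norm_num) (by norm_num) hn0]
    -- the parameter
    have hfl := Nat.floor_le (a := 2 * L) (by positivity)
    have hfl2 := Nat.lt_floor_add_one (2 * L)
    set s := ⌊2 * L⌋₊ with hs
    have hs4 : 3 ≤ s := by
      have : (3 : ℝ) < (s : ℝ) := by linarith
      have h3 : 3 < s := by exact_mod_cast this
      omega
    obtain ⟨k, hk⟩ : ∃ k, s = k + 1 := ⟨s - 1, by omega⟩
    have hkpos : 0 < k := by omega
    have hk1 : 2 * L - 2 < (k : ℝ) := by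
      rw [hk] at hfl2
      push_cast at hfl2
      linarith
    have hk2 : (k : ℝ) + 1 ≤ 2 * L := by
      rw [hk] at hfl
      push_cast at hfl
      exact hfl
    have h2k : 2 * k ≤ n := by
      have h1 : ((2 * k : ℕ) : ℝ) ≤ n := by
        have h2 := hL₁ L hLL1
        rw [one_mul, ← hnL] at h2
        push_cast
        nlinarith
      exact_mod_cast h1
    have h1 := mono_lower h2k
    have h2 : {f : Cube n → Bool | Monotone f ∧ ∀ x, sensAt f x ≤ k + 1} ⊆ MonoLow n (2 * L) := by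
      rintro f ⟨hm, hf⟩
      refine ⟨hm, fun x => ?_⟩
      have : ((sensAt f x : ℕ) : ℝ) ≤ ((k + 1 : ℕ) : ℝ) := by exact_mod_cast hf x
      push_cast at this
      linarith
    have h3 := h1.trans (Set.ncard_le_ncard h2 (Set.toFinite _))
    have h4 : (k.centralBinom : ℝ) ≤ Real.logb 2 ((MonoLow n (2 * L)).ncard : ℝ) := by
      have h5 : ((2 : ℝ) ^ k.centralBinom) ≤ ((MonoLow n (2 * L)).ncard : ℝ) := by exact_mod_cast h3
      calc (k.centralBinom : ℝ) = Real.logb 2 ((2 : ℝ) ^ k.centralBinom) := by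
            rw [Real.logb_pow, Real.logb_self_eq_one (by norm_num), mul_one]
        _ ≤ _ := Real.logb_le_logb_of_le (by norm_num) (by positivity) h5
    refine le_trans ?_ h4
    have h6 : (4 : ℝ) ^ k ≤ 2 * k * k.centralBinom := by
      exact_mod_cast Nat.four_pow_le_two_mul_self_mul_centralBinom k hkpos
    have h7 : (n : ℝ) ^ (4 : ℝ) / 16 ≤ (4 : ℝ) ^ k := by
      have h8 : (4 : ℝ) ^ k = (2 : ℝ) ^ (2 * (k : ℝ)) := by
        rw [Real.rpow_mul (by norm_num), Real.rpow_natCast]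
        norm_num
      have h9 : (n : ℝ) ^ (4 : ℝ) / 16 = (2 : ℝ) ^ (4 * L - 4) := by
        rw [Real.rpow_sub (by norm_num), hnL, ← Real.rpow_mul (by norm_num)]
        norm_num
        ring_nf
      rw [h8, h9]
      exact Real.rpow_le_rpow_of_exponent_le (by norm_num) (by linarith)
    have h10 : (n : ℝ) ^ (4 : ℝ) ≤ 64 * L * k.centralBinom := by
      have hc : (0 : ℝ) ≤ k.centralBinom := Nat.cast_nonneg _
      have h11 : (2 * k * k.centralBinom : ℝ) ≤ 4 * L * k.centralBinom := by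
        refine mul_le_mul_of_nonneg_right ?_ hc
        linarith
      have h12 : (n : ℝ) ^ (4 : ℝ) / 16 ≤ 4 * L * k.centralBinom := (h7.trans h6).trans h11
      linarith
    have h13 : 64 * L ≤ (n : ℝ) ^ ε := by
      have h14 := hL₀ L hLL0
      have h15 : (2 : ℝ) ^ (ε * L) = (n : ℝ) ^ ε := by
        rw [hnL, ← Real.rpow_mul (by norm_num), mul_comm]
      rw [h15] at h14
      nlinarith
    have h16 : (0 : ℝ) < (n : ℝ) ^ ε := Real.rpow_pos_of_pos hn0 _
    rw [Real.rpow_sub hn0, div_le_iff₀ h16]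
    calc (n : ℝ) ^ (4 : ℝ) ≤ 64 * L * k.centralBinom := h10
      _ ≤ (n : ℝ) ^ ε * k.centralBinom := mul_le_mul_of_nonneg_right h13 (Nat.cast_nonneg _)
      _ = k.centralBinom * (n : ℝ) ^ ε := mul_comm _ _
  · have h1 := hn₁ n ((le_max_left _ _).trans hn)
    have h2 : (4 : ℝ) + ε = 2 + 2 + ε := by ring
    rw [h2]
    refine le_trans ?_ h1
    have h3 := Set.ncard_le_ncard (monoLow_sub n (2 * Real.logb 2 n)) (Set.toFinite _)
    rcases Nat.eq_zero_or_pos (MonoLow n (2 * Real.logb 2 n)).ncard with h0 | h0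
    · rw [h0, Nat.cast_zero, Real.logb_zero]
      rcases Nat.eq_zero_or_pos (OneSided n (2 * Real.logb 2 n) (2 * Real.logb 2 n)).ncard with h4 | h4
      · rw [h4, Nat.cast_zero, Real.logb_zero]
      · exact Real.logb_nonneg (by norm_num) (by exact_mod_cast h4)
    · exact Real.logb_le_logb_of_le (by norm_num) (by exact_mod_cast h0) (by exact_mod_cast h3)

end Pool.Agent.Results.MP_4c73d6_lc.MonotoneExponent
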