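import Pool.Agent.LSC.Asym

set_option autoImplicit false

/-!
# MP_4c73d6_lc: functions with narrow disjunctive normal forms
-/

namespace Pool.Agent.Results.MP_4c73d6_lc.NarrowDnf

open Pool.Agent.LSC

/-- The number of Boolean functions on `n` variables which are disjunctions of conjunctions of at
most `c` literals and have sensitivity at most `s` at all their zeros is at most
`((2 n + 1) ^ c + 1) ^ (2 ^ (c + s))`. Hence its logarithm is at most `n ^ (K + M + ε)` if
`c = K log n`, `s = M log n` and `n` is large. -/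
theorem result :
    (∀ n c s : ℕ, (OneSided n (c : ℝ) (s : ℝ)).ncard ≤ ((2 * n + 1) ^ c + 1) ^ (2 ^ (c + s))) ∧
    ∀ K M ε : ℝ, 0 ≤ K → 0 ≤ M → 0 < ε → ∃ n₀ : ℕ, ∀ n : ℕ, n₀ ≤ n →
      Real.logb 2 ((OneSided n (K * Real.logb 2 n) (M * Real.logb 2 n)).ncard : ℝ) ≤
        (n : ℝ) ^ (K + M + ε) :=
  ⟨oneSided_card, oneSided_asym⟩

end Pool.Agent.Results.MP_4c73d6_lc.NarrowDnf
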