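import Pool.Agent.LSP.Pred

set_option autoImplicit false

/-!
# MP_4c73d6_lc: log |F(2 log n, n)| is at most a fixed power of n, so the answer to Q1 is no
-/

namespace Pool.Agent.Results.MP_4c73d6_lc.PolynomialCount

open Pool.Agent.LSC

theorem low_natCast (n s : ℕ) : Low n (s : ℝ) = {f : Cube n → Bool | ∀ x, sensAt f x ≤ s} := by
  ext f
  simp [Low]

theorem low_floor (n : ℕ) {r : ℝ} (hr : 0 ≤ r) :
    Low n r = {f : Cube n → Bool | ∀ x, sensAt f x ≤ ⌊r⌋₊} := by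
  ext f
  simp only [Low, Set.mem_ofPred_eq]
  refine forall_congr' fun x => ?_
  rw [Nat.le_floor_iff hr]

theorem log_bound (n s : ℕ) :
    Real.logb 2 ({f : Cube n → Bool | ∀ x, sensAt f x ≤ s}.ncard : ℝ) ≤
      n + (n * 2 ^ (24 * s) + 1) * Real.logb 2 (2 * ((n : ℝ) + 1) ^ (2 * s) + 1) := by
  have h1 := Pool.Agent.LSP.low_card' n s
  have hpos : (0 : ℝ) < 2 * ((n : ℝ) + 1) ^ (2 * s) + 1 := by positivity
  have hone : (1 : ℝ) ≤ 2 * ((n : ℝ) + 1) ^ (2 * s) + 1 := by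
    have : (0 : ℝ) ≤ 2 * ((n : ℝ) + 1) ^ (2 * s) := by positivity
    linarith
  rcases Nat.eq_zero_or_pos ({f : Cube n → Bool | ∀ x, sensAt f x ≤ s}.ncard) with h0 | h0
  · rw [h0, Nat.cast_zero, Real.logb_zero]
    have : 0 ≤ Real.logb 2 (2 * ((n : ℝ) + 1) ^ (2 * s) + 1) := Real.logb_nonneg (by norm_num) hone
    positivity
  · have h2 : ({f : Cube n → Bool | ∀ x, sensAt f x ≤ s}.ncard : ℝ) ≤
        2 ^ n * (2 * ((n : ℝ) + 1) ^ (2 * s) + 1) ^ (n * 2 ^ (24 * s) + 1) := by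
      exact_mod_cast h1
    calc Real.logb 2 ({f : Cube n → Bool | ∀ x, sensAt f x ≤ s}.ncard : ℝ)
        ≤ Real.logb 2 (2 ^ n * (2 * ((n : ℝ) + 1) ^ (2 * s) + 1) ^ (n * 2 ^ (24 * s) + 1)) :=
          Real.logb_le_logb_of_le (by norm_num) (by exact_mod_cast h0) h2
      _ = n + (n * 2 ^ (24 * s) + 1) * Real.logb 2 (2 * ((n : ℝ) + 1) ^ (2 * s) + 1) := by
        rw [Real.logb_mul (by positivity) (by positivity), Real.logb_pow, Real.logb_pow]
        rw [Real.logb_self_eq_one (by norm_num), mul_one]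
        push_cast
        ring

theorem poly_bound (n : ℕ) (hn : 2 ≤ n) :
    Real.logb 2 ((Low n (2 * Real.logb 2 n)).ncard : ℝ) ≤ (n : ℝ) ^ 56 := by
  have hn2 : (2 : ℝ) ≤ n := by exact_mod_cast hn
  have hn0 : (0 : ℝ) < n := by linarith
  set L := Real.logb 2 (n : ℝ) with hL
  have hL1 : 1 ≤ L := by
    rw [hL, Real.le_logb_iff_rpow_le (by norm_num) hn0, Real.rpow_one]
    exact hn2
  have hLn : L ≤ n := by
    rw [hL, Real.logb_le_iff_le_rpow (by norm_num) hn0, Real.rpow_natCast]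
    exact_mod_cast (Nat.lt_two_pow_self (n := n)).le
  have hnL : (n : ℝ) = (2 : ℝ) ^ L := by
    rw [hL, Real.rpow_logb (by norm_num) (by norm_num) hn0]
  have hs := Nat.floor_le (a := 2 * L) (by positivity)
  set s := ⌊2 * L⌋₊ with hsdef
  rw [low_floor n (by positivity : (0 : ℝ) ≤ 2 * L), ← hsdef]
  refine (log_bound n s).trans ?_
  have hA : (2 : ℝ) ^ (24 * s) ≤ (n : ℝ) ^ 48 := by
    rw [← Real.rpow_natCast 2 (24 * s), hnL, ← Real.rpow_natCast _ 48,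
      ← Real.rpow_mul (by norm_num)]
    refine Real.rpow_le_rpow_of_exponent_le (by norm_num) ?_
    push_cast
    linarith
  have hB : Real.logb 2 (2 * ((n : ℝ) + 1) ^ (2 * s) + 1) ≤ (n : ℝ) ^ 6 := by
    have h1 : 2 * ((n : ℝ) + 1) ^ (2 * s) + 1 ≤ ((n : ℝ) ^ 2) ^ (2 * s + 2) := by
      have h2 : (1 : ℝ) ≤ ((n : ℝ) + 1) ^ (2 * s) := one_le_pow₀ (by linarith)
      calc 2 * ((n : ℝ) + 1) ^ (2 * s) + 1 ≤ ((n : ℝ) + 1) ^ (2 * s) * 3 := by linarith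
        _ ≤ ((n : ℝ) + 1) ^ (2 * s) * ((n : ℝ) + 1) ^ 2 := by
          refine mul_le_mul_of_nonneg_left ?_ (by positivity)
          nlinarith
        _ = ((n : ℝ) + 1) ^ (2 * s + 2) := by rw [← pow_add]
        _ ≤ _ := pow_le_pow_left₀ (by positivity) (by nlinarith) _
    calc Real.logb 2 (2 * ((n : ℝ) + 1) ^ (2 * s) + 1)
        ≤ Real.logb 2 (((n : ℝ) ^ 2) ^ (2 * s + 2)) :=
          Real.logb_le_logb_of_le (by norm_num) (by positivity) h1
      _ = (2 * s + 2) * (2 * L) := by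
          rw [Real.logb_pow, Real.logb_pow, ← hL]
          push_cast
          ring
      _ ≤ (6 * L) * (2 * L) := by
          refine mul_le_mul_of_nonneg_right ?_ (by positivity)
          linarith
      _ ≤ 12 * (n : ℝ) ^ 2 := by nlinarith
      _ ≤ (n : ℝ) ^ 4 * (n : ℝ) ^ 2 := by
          refine mul_le_mul_of_nonneg_right ?_ (by positivity)
          have : (2 : ℝ) ^ 4 ≤ (n : ℝ) ^ 4 := pow_le_pow_left₀ (by norm_num) hn2 4
          linarith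
      _ = (n : ℝ) ^ 6 := by rw [← pow_add]
  have hB0 : 0 ≤ Real.logb 2 (2 * ((n : ℝ) + 1) ^ (2 * s) + 1) := by
    refine Real.logb_nonneg (by norm_num) ?_
    have : (0 : ℝ) ≤ 2 * ((n : ℝ) + 1) ^ (2 * s) := by positivity
    linarith
  have h1n : (1 : ℝ) ≤ n := by linarith
  calc (n : ℝ) + (n * 2 ^ (24 * s) + 1) * Real.logb 2 (2 * ((n : ℝ) + 1) ^ (2 * s) + 1)
      ≤ n + (n * (n : ℝ) ^ 48 + 1) * (n : ℝ) ^ 6 := by
        refine add_le_add le_rfl (mul_le_mul ?_ hB hB0 (by positivity))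
        refine add_le_add ?_ le_rfl
        exact mul_le_mul_of_nonneg_left hA hn0.le
    _ = n + (n : ℝ) ^ 6 + (n : ℝ) ^ 55 := by ring
    _ ≤ (n : ℝ) ^ 55 + (n : ℝ) ^ 55 := by
        have h2 : (n : ℝ) ≤ (n : ℝ) ^ 6 := le_self_pow₀ h1n (by norm_num)
        have h3 : (2 : ℝ) ≤ (n : ℝ) ^ 49 := hn2.trans (le_self_pow₀ h1n (by norm_num))
        have h4 : 0 ≤ (n : ℝ) ^ 6 := by positivity
        have h5 : (n : ℝ) ^ 55 = (n : ℝ) ^ 49 * (n : ℝ) ^ 6 := by rw [← pow_add]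
        nlinarith
    _ = 2 * (n : ℝ) ^ 55 := by ring
    _ ≤ n * (n : ℝ) ^ 55 := mul_le_mul_of_nonneg_right hn2 (by positivity)
    _ = (n : ℝ) ^ 56 := by rw [← pow_succ']

/-- `log |F(s, n)| ≤ n + (n 2 ^ (24 s) + 1) log (2 (n + 1) ^ (2 s) + 1)` for all `n` and `s`, hence
`log |F(2 log n, n)| ≤ n ^ 56` for all `n ≥ 2`; so it is not true that `log |F(2 log n, n)|` grows
faster than every fixed power of `n` (the answer to Q1 is no). -/
theorem result :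
    (∀ n s : ℕ, (Low n (s : ℝ)).ncard ≤
      2 ^ n * (2 * (n + 1) ^ (2 * s) + 1) ^ (n * 2 ^ (24 * s) + 1)) ∧
    (∀ n : ℕ, 2 ≤ n →
      Real.logb 2 ((Low n (2 * Real.logb 2 n)).ncard : ℝ) ≤ (n : ℝ) ^ (56 : ℝ)) ∧
    ¬ ∀ c : ℝ, 0 < c → ∃ n₀ : ℕ, ∀ n : ℕ, n₀ ≤ n →
      (n : ℝ) ^ c ≤ Real.logb 2 ((Low n (2 * Real.logb 2 n)).ncard : ℝ) := by
  have h2 : ∀ n : ℕ, 2 ≤ n →
      Real.logb 2 ((Low n (2 * Real.logb 2 n)).ncard : ℝ) ≤ (n : ℝ) ^ (56 : ℝ) := by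
    intro n hn
    have h3 := poly_bound n hn
    rwa [← Real.rpow_natCast] at h3
  refine ⟨fun n s => by rw [low_natCast]; exact Pool.Agent.LSP.low_card' n s, h2, fun h => ?_⟩
  obtain ⟨n₀, hn₀⟩ := h 57 (by norm_num)
  have h3 := (hn₀ (max n₀ 2) (le_max_left _ _)).trans (h2 _ (le_max_right _ _))
  have h4 : (1 : ℝ) < ((max n₀ 2 : ℕ) : ℝ) := by
    have : 1 < max n₀ 2 := lt_of_lt_of_le (by norm_num) (le_max_right _ _)
    exact_mod_cast this
  exact absurd h3 (not_le.2 (Real.rpow_lt_rpow_of_exponent_lt h4 (by norm_num)))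

end Pool.Agent.Results.MP_4c73d6_lc.PolynomialCount
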